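import Pool.Agent.Helper42.GW.St
import Pool.Agent.Helper13.GP.Cyc2

/-! Gilbert-Pollak, chapter COR, word level: the zip for words -/

set_option autoImplicit false

namespace Pool.Agent.Helper82.GW

open Pool.Agent.Helper18.GP Pool.Agent.Helper62.GP Pool.Agent.Helper42.GW
  Pool.Agent.Helper13.GP Classical

private theorem sp3 {α β : Type*} {R : α → β → Prop} {l : List α} {A B : List β} {u s u' : β}
    (h : List.Forall₂ R l (A ++ u :: s :: u' :: B)) :
    ∃ LA x y z LB, l = LA ++ x :: y :: z :: LB ∧ List.Forall₂ R LA A ∧ R x u ∧ R y s ∧ R z u' ∧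
      List.Forall₂ R LB B := by
  have h1 := List.forall₂_take_append _ _ _ h
  have h2 := List.forall₂_drop_append _ _ _ h
  obtain ⟨x, l1, hx, h3, e1⟩ := List.forall₂_cons_right_iff.1 h2
  obtain ⟨y, l2, hy, h4, e2⟩ := List.forall₂_cons_right_iff.1 h3
  obtain ⟨z, l3, hz, h5, e3⟩ := List.forall₂_cons_right_iff.1 h4
  refine ⟨l.take A.length, x, y, z, l3, ?_, h1, hx, hy, hz, h5⟩
  subst e3 e2
  rw [← e1, List.take_append_drop]

private theorem f2imp {α β : Type*} {R S : α → β → Prop} {l : List α} {w : List β}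
    (h : List.Forall₂ R l w) (hi : ∀ a ∈ l, ∀ b, R a b → S a b) : List.Forall₂ S l w := by
  induction h with
  | nil => exact List.Forall₂.nil
  | cons h1 _ ih =>
    exact List.Forall₂.cons (hi _ (List.mem_cons_self ..) _ h1)
      (ih fun a ha b => hi a (List.mem_cons_of_mem _ ha) b)

theorem wZip_thm (hz : stZip) : wZip := by
  intro u s u' A B c₁ c₂ hQ hp ha
  obtain ⟨N, V, G, P, B₁, B₂, hT, hS, hB₁, hB₂, hF, hL₁, hL₂⟩ := hQ
  obtain ⟨LA, x, y, z, LB, hl, hFA, hx, hy, hzz, hFB⟩ := sp3 hF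
  have hsort : (V.sort (· ≤ ·)).Pairwise (· < ·) := (V.sortedLT_sort).pairwise
  rw [hl] at hsort
  have hmem : ∀ v, v ∈ V ↔ v ∈ LA ∨ v = x ∨ v = y ∨ v = z ∨ v ∈ LB := by
    intro v
    rw [← Finset.mem_sort (· ≤ ·), hl]
    simp
  obtain ⟨hpA, hpB, hAB⟩ := List.pairwise_append.1 hsort
  obtain ⟨hxl, hpB⟩ := List.pairwise_cons.1 hpB
  obtain ⟨hyl, hpB⟩ := List.pairwise_cons.1 hpB
  obtain ⟨hzl, hpB⟩ := List.pairwise_cons.1 hpB
  have hxy : x < y := hxl y (by simp)
  have hyz : y < z := hyl z (by simp)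
  have hxB : ∀ b ∈ LB, z < b := hzl
  have hAx : ∀ a ∈ LA, a < x := fun a ha => hAB a ha x (by simp)
  have hxV : x ∈ V := (hmem x).2 (by simp)
  have hyV : y ∈ V := (hmem y).2 (by simp)
  have hzV : z ∈ V := (hmem z).2 (by simp)
  have hc1 : ∀ v ∈ V, ¬ Ccw x v y := by
    intro v hv hc
    rw [Ccw_iff] at hc
    rw [hmem] at hv
    rcases hv with hv | rfl | rfl | rfl | hv
    · have := hAx v hv
      simp only [Fin.lt_def] at *
      omega
    · simp only [Fin.lt_def] at *
      omega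
    · simp only [Fin.lt_def] at *
      omega
    · simp only [Fin.lt_def] at *
      omega
    · have := hxB v hv
      simp only [Fin.lt_def] at *
      omega
  have hc2 : ∀ v ∈ V, ¬ Ccw y v z := by
    intro v hv hc
    rw [Ccw_iff] at hc
    rw [hmem] at hv
    rcases hv with hv | rfl | rfl | rfl | hv
    · have := hAx v hv
      simp only [Fin.lt_def] at *
      omega
    · simp only [Fin.lt_def] at *
      omega
    · simp only [Fin.lt_def] at *
      omega
    · simp only [Fin.lt_def] at *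
      omega
    · have := hxB v hv
      simp only [Fin.lt_def] at *
      omega
  have hxz : x < z := hxy.trans hyz
  obtain ⟨G', hT', hS', hang, hangx, hLn⟩ := hz N V G P y x z hT hS hyV hxV hzV hxy.ne hyz.ne'
    hxz.ne hc1 hc2 (by rw [hx.1, hzz.1, hp]) (hy.2.1 _ ha)
  set V' := zV V y z with hV'
  have hmem' : ∀ v, v ∈ V' ↔ v ∈ LA ∨ v = x ∨ v ∈ LB := by
    intro v
    rw [hV', zV, Finset.mem_erase, Finset.mem_erase, hmem]
    constructor
    · rintro ⟨h1, h2, h3⟩
      tauto
    · rintro (h1 | h1 | h1)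
      · have h2 := hAx v h1
        exact ⟨(h2.trans hxz).ne, (h2.trans hxy).ne, Or.inl h1⟩
      · subst h1
        exact ⟨hxz.ne, hxy.ne, by simp⟩
      · have h2 := hxB v h1
        exact ⟨h2.ne', (hyz.trans h2).ne', by simp [h1]⟩
  have hpl : (LA ++ x :: LB).Pairwise (· < ·) := by
    rw [List.pairwise_append]
    refine ⟨hpA, List.pairwise_cons.2 ⟨fun b hb => hxz.trans (hxB b hb), hpB⟩, ?_⟩
    intro a ha b hb
    rcases List.mem_cons.1 hb with rfl | hb
    · exact hAx a ha
    · exact (hAx a ha).trans (hxz.trans (hxB b hb))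
  have hsort' : V'.sort (· ≤ ·) = LA ++ x :: LB := by
    have h1 : V' = (LA ++ x :: LB).toFinset := by
      ext v
      rw [hmem', List.mem_toFinset]
      simp
    rw [h1]
    exact (List.toFinset_sort (r := (· ≤ ·)) (hpl.imp fun h => h.ne)).2 (hpl.imp fun h => h.le)
  -- the marks
  have hmk : ∀ C : Finset (Fin N), C ⊆ V → ((C.erase y).image fun v => if v = z then x else v) ⊆ V' ∧
      (x ∈ ((C.erase y).image fun v => if v = z then x else v) ↔ x ∈ C ∨ z ∈ C) ∧
      ∀ v, v ≠ x → v ≠ y → v ≠ z →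
        (v ∈ ((C.erase y).image fun v => if v = z then x else v) ↔ v ∈ C) := by
    intro C hC
    refine ⟨?_, ?_, ?_⟩
    · intro v hv
      obtain ⟨w, hw, rfl⟩ := Finset.mem_image.1 hv
      obtain ⟨hwy, hwC⟩ := Finset.mem_erase.1 hw
      have hwV := (hmem w).1 (hC hwC)
      rw [hmem']
      split_ifs with hwz
      · simp
      · tauto
    · rw [Finset.mem_image]
      constructor
      · rintro ⟨w, hw, he⟩
        obtain ⟨hwy, hwC⟩ := Finset.mem_erase.1 hw
        split_ifs at he with hwz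
        · subst hwz
          exact Or.inr hwC
        · subst he
          exact Or.inl hwC
      · rintro (h | h)
        · exact ⟨x, Finset.mem_erase.2 ⟨hxy.ne, h⟩, by simp [hxz.ne]⟩
        · exact ⟨z, Finset.mem_erase.2 ⟨hyz.ne', h⟩, by simp⟩
    · intro v hvx hvy hvz
      rw [Finset.mem_image]
      constructor
      · rintro ⟨w, hw, he⟩
        obtain ⟨hwy, hwC⟩ := Finset.mem_erase.1 hw
        split_ifs at he with hwz
        · exact absurd he.symm hvx
        · subst he
          exact hwC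
      · intro h
        exact ⟨v, Finset.mem_erase.2 ⟨hvy, h⟩, by simp [hvz]⟩
  have htr : ∀ v, v ∈ V' → v ≠ x → v ≠ y → v ≠ z → ∀ i, OKI V G P B₁ B₂ v i →
      OKI V' G' P ((B₁.erase y).image fun v => if v = z then x else v)
        ((B₂.erase y).image fun v => if v = z then x else v) v i := by
    intro v hv hvx hvy hvz i hi
    refine ⟨hi.1, ?_, ?_, ?_⟩
    · intro α hα
      rw [hang v hv hvx]
      exact hi.2.1 α hα
    · rw [(hmk B₁ hB₁).2.2 v hvx hvy hvz]
      exact hi.2.2.1
    · rw [(hmk B₂ hB₂).2.2 v hvx hvy hvz]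
      exact hi.2.2.2
  refine ⟨N, V', G', P, _, _, hT', hS', (hmk B₁ hB₁).1, (hmk B₂ hB₂).1, ?_,
    (hLn B₁ hB₁).trans hL₁, (hLn B₂ hB₂).trans hL₂⟩
  rw [hsort']
  refine List.rel_append (f2imp hFA ?_) (List.Forall₂.cons ?_ (f2imp hFB ?_))
  · intro a ha i hi
    have h := hAx a ha
    exact htr a ((hmem' a).2 (Or.inl ha)) h.ne (h.trans hxy).ne (h.trans hxz).ne i hi
  · refine ⟨hx.1, ?_, ?_, ?_⟩
    · intro α hα
      rw [hangx]
      simp only [It.add] at hα
      rcases h1 : u.a with _ | a1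
      · rw [h1] at hα
        simp [oadd] at hα
      · rcases h2 : u'.a with _ | a2
        · rw [h1, h2] at hα
          simp [oadd] at hα
        · rw [h1, h2] at hα
          simp only [oadd, Option.some.injEq] at hα
          rw [hx.2.1 _ h1, hzz.2.1 _ h2, hα]
    · rw [(hmk B₁ hB₁).2.1, hx.2.2.1, hzz.2.2.1]
      simp [It.add]
    · rw [(hmk B₂ hB₂).2.1, hx.2.2.2, hzz.2.2.2]
      simp [It.add]
  · intro a ha i hi
    have h := hxB a ha
    exact htr a ((hmem' a).2 (Or.inr (Or.inr ha))) (hxz.trans h).ne' (hyz.trans h).ne' h.ne' i hi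

end Pool.Agent.Helper82.GW
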